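import Pool.Agent.Run7.h632.EX.Vn

/-!
# A hyperfinite irreducible existential subfactor of a factor with property (T)
-/

set_option autoImplicit false

namespace Pool.Agent.Run7.h632.EX

open Filter Topology
open scoped InnerProductSpace ComplexOrder
open Pool.Agent.H494R3.GT (L2 dl)
open Pool.Agent.N557.QW (LG LK)
open Pool.Agent.N44.NS (E3)
open Pool.Agent.N571.EX

variable {H : Type} [NormedAddCommGroup H] [InnerProductSpace ℂ H] [CompleteSpace H]

/-- `A 0 ≤ A 1 ≤ ...` are finite-dimensional unital `*`-subalgebras of the von Neumann algebra `N`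
whose union is dense in `N` for the 2-norm `‖x‖₂ = ‖x Ω‖`. -/
structure FiniteDimUnion (N : VonNeumannAlgebra H) (Ω : H)
    (A : ℕ → StarSubalgebra ℂ (H →L[ℂ] H)) : Prop where
  mono : Monotone A
  finiteDim : ∀ n, FiniteDimensional ℂ (A n)
  sub : ∀ n, ∀ a ∈ A n, a ∈ N
  dense : ∀ x ∈ N, ∀ ε : ℝ, 0 < ε → ∃ n, ∃ a ∈ A n, ‖a Ω - x Ω‖ < ε

/-- `N ⊆ M` are `II₁` factors with the same trace `x ↦ ⟪Ω, x Ω⟫`; `N` is hyperfinite and has the
Haagerup property; every element of `M` which commutes with `N` is a scalar; `M` has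
property (T); and the inclusion `N ⊆ M` is existential for every non-principal ultrafilter. -/
structure HyperfiniteExample (N M : VonNeumannAlgebra H) (Ω : H) : Prop where
  sub : ∀ x ∈ N, x ∈ M
  factorN : Plain.IIOneFactor N Ω
  factorM : Plain.IIOneFactor M Ω
  hyperfinite : ∃ A, FiniteDimUnion N Ω A
  haagerup : Plain.Haagerup N Ω
  irreducible : ∀ z ∈ M, (∀ x ∈ N, z * x = x * z) → ∃ c : ℂ, z = c • (1 : H →L[ℂ] H)
  propertyT : Plain.PropertyT M
  existential : ∀ U : Ultrafilter ℕ, (U : Filter ℕ) ≤ cofinite → ∃ π, Plain.UltraEmb N M Ω U π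

theorem hyperfinite_example : ∃ (H : Type) (_ : NormedAddCommGroup H) (_ : InnerProductSpace ℂ H)
    (_ : CompleteSpace H) (_ : TopologicalSpace.SeparableSpace H) (N M : VonNeumannAlgebra H)
    (Ω : H), HyperfiniteExample N M Ω := by
  have hTR : S_TR := t_tr
  have hDEN : S_DEN := t_den hTR
  have hPF : S_PF := t_pf hTR hDEN
  have hEXI : S_EXI := t_exi hTR t_res t_cay hPF (t_rl1 hTR hPF) (t_rl2 hTR t_res hPF)
  have hPTM : S_PTM := t_ptm t_kp t_res t_cay hTR hDEN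
  obtain ⟨F, _, _, hF1, hF2⟩ := t_fld
  obtain ⟨Γ, _, s, t, K, Kn, θ, hst, hi, hinf, hD⟩ := gam
  have : Infinite K := hinf
  have : Infinite Γ := Infinite.of_injective (Subtype.val : K → Γ) Subtype.val_injective
  obtain ⟨Kn', θ', hD'⟩ := ex3 F Γ K Kn θ hD
  have hR := ricc_E3 K hF2 hi
  have hT : Pool.Agent.N708.MX.PT (E3 (MonoidAlgebra F Γ)) :=
    t_tg Pool.Agent.N403.MX.t_tt F hF1 Γ s t hst
  have hinfK : Infinite (EX3aux.ES (EX3aux.Sp F K)) := inf_ES F Γ K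
  have hinfG : Infinite (E3 (MonoidAlgebra F Γ)) := inf_e3 F Γ
  obtain ⟨k, γ, hγ⟩ := Pool.Agent.N403.MX.t_fg (E3 (MonoidAlgebra F Γ)) hT
  have : Countable (E3 (MonoidAlgebra F Γ)) := hγ.countable
  obtain ⟨h1, -⟩ := hTR (E3 (MonoidAlgebra F Γ)) (EX3aux.ES (EX3aux.Sp F K))
  have hsub : ∀ x ∈ LK (EX3aux.ES (EX3aux.Sp F K)), x ∈ LG (E3 (MonoidAlgebra F Γ)) :=
    fun x hx => ((h1 x).1 hx).1
  obtain ⟨A, hA1, hA2, hA3, hA4⟩ := hyp hTR hPF hD'
  exact ⟨L2 (E3 (MonoidAlgebra F Γ)), inferInstance, inferInstance, inferInstance, sep _,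
    LK (EX3aux.ES (EX3aux.Sp F K)), LG (E3 (MonoidAlgebra F Γ)), dl 1,
    { sub := hsub
      factorN := Plain.iione ((t_fac hTR _ (EX3aux.ES (EX3aux.Sp F K))).2 hR.icc' hinfK)
      factorM := Plain.iione ((t_fac hTR _ (EX3aux.ES (EX3aux.Sp F K))).1 hR.icc hinfG)
      hyperfinite := ⟨A, ⟨hA1, hA2, hA3, hA4⟩⟩
      haagerup := Plain.haag (t_haa hTR _ _ Kn' hD'.mono hD'.fin hD'.mem)
      irreducible := irr hTR hR
      propertyT := Plain.hast (hPTM _ hT)
      existential := fun U hU => Plain.exi hsub (hEXI _ _ Kn' θ' hD' U hU) }⟩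

end Pool.Agent.Run7.h632.EX
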