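import Pool.Agent.N571.EX.Asm
import Pool.Agent.N571.EX.GAM
import Pool.Agent.N571.EX.ICC
import Pool.Agent.N571.EX.EX3

/-!
# Relative infinite conjugacy classes

`RICC G K`: all classes `{h g h⁻¹ : h ∈ K}`, `g ≠ 1` in `G`, are infinite. We show it for the
finitary permutations inside the group generated by them and the shift, and pass it to
`E_3(F[K]) ≤ E_3(F[Γ])`, together with the local embeddings.
-/

set_option autoImplicit false

namespace Pool.Agent.Run7.h632.EX

open Filter
open Pool.Agent.N44.NS (el E3)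
open Pool.Agent.N571.EX

/-- all classes of nontrivial elements of `G` under conjugation by `K` are infinite -/
def RICC (G : Type) [Group G] (K : Subgroup G) : Prop :=
  ∀ g : G, g ≠ 1 → Set.Infinite {x : G | ∃ h ∈ K, x = h * g * h⁻¹}

theorem RICC.icc {G : Type} [Group G] {K : Subgroup G} (h : RICC G K) : ICC G := by
  intro g hg
  refine (h g hg).mono ?_
  rintro x ⟨k, -, hx⟩
  exact ⟨k, hx⟩

theorem RICC.icc' {G : Type} [Group G] {K : Subgroup G} (h : RICC G K) : ICC K := by
  intro g hg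
  have h1 : (g : G) ≠ 1 := fun h => hg (Subtype.ext h)
  have h2 := h _ h1
  intro hfin
  refine h2 ((hfin.image Subtype.val).subset ?_)
  rintro x ⟨k, hk, rfl⟩
  exact ⟨⟨k, hk⟩ * g * ⟨k, hk⟩⁻¹, ⟨⟨k, hk⟩, rfl⟩, rfl⟩

theorem ricc_of (G : Type) [Group G] (K : Subgroup G) (ι : G →* GAM.PZ)
    (hι : Function.Injective ι) (hsw : ∀ b c : ℤ, ∃ h ∈ K, ι h = Equiv.swap b c) :
    RICC G K := by
  intro g hg
  have h1 : ι g ≠ 1 := by
    intro h
    exact hg (hι (by rw [h, map_one]))
  obtain ⟨a, ha⟩ : ∃ a, ι g a ≠ a := by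
    by_contra h
    push Not at h
    exact h1 (Equiv.ext h)
  choose h hK hh using fun c : ℤ => hsw (ι g a) c
  have hval : ∀ c ∈ ({a, ι g a}ᶜ : Set ℤ), ι (h c * g * (h c)⁻¹) a = c := by
    intro c hc
    simp only [Set.mem_compl_iff, Set.mem_insert_iff, Set.mem_singleton_iff, not_or] at hc
    rw [map_mul, map_mul, map_inv, hh, Equiv.Perm.mul_apply, Equiv.Perm.mul_apply,
      Equiv.swap_inv, Equiv.swap_apply_of_ne_of_ne ha.symm (Ne.symm hc.1), Equiv.swap_apply_left]
  refine Set.infinite_of_injOn_mapsTo (f := fun c : ℤ => h c * g * (h c)⁻¹)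
    (s := ({a, ι g a}ᶜ : Set ℤ)) ?_ ?_ ?_
  · intro c hc c' hc' hcc
    have h2 := hval c hc
    have h3 := hval c' hc'
    have h4 : h c * g * (h c)⁻¹ = h c' * g * (h c')⁻¹ := hcc
    rw [← h2, ← h3, h4]
  · intro c _
    exact ⟨h c, hK c, rfl⟩
  · exact (Set.toFinite _).infinite_compl

open GAM in
theorem gam : ∃ (Γ : Type) (_ : Group Γ) (s t : Γ) (K : Subgroup Γ) (Kn : ℕ → Subgroup Γ)
    (θ : ℕ → Γ → Γ),
    Subgroup.closure {s, t} = ⊤ ∧ RICC Γ K ∧ Infinite K ∧ ExD Γ K Kn θ := by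
  refine ⟨G0, inferInstance, ⟨sh 1, 1, fi_sh 1⟩, ⟨Equiv.swap 0 1, K0_le (swap_mem 0 1)⟩,
    K0.subgroupOf G0, fun n => (Kn0 n).subgroupOf G0, th, ?_, ?_, ?_, ?_⟩
  · apply Subgroup.map_injective G0.subtype_injective
    rw [MonoidHom.map_closure]
    have h1 : (G0.subtype '' {⟨sh 1, 1, fi_sh 1⟩, ⟨Equiv.swap 0 1, K0_le (swap_mem 0 1)⟩} :
        Set PZ) = {sh 1, Equiv.swap 0 1} := by
      rw [Set.image_pair]
      rfl
    rw [h1]
    show C0 = _
    rw [C0_eq, ← MonoidHom.range_eq_map, Subgroup.range_subtype]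
  · exact ricc_of G0 (K0.subgroupOf G0) G0.subtype G0.subtype_injective
      (fun b c => ⟨⟨Equiv.swap b c, K0_le (swap_mem b c)⟩, swap_mem b c, rfl⟩)
  · exact infinite_of (K0.subgroupOf G0) (G0.subtype.comp (K0.subgroupOf G0).subtype)
      (fun b c => ⟨⟨⟨Equiv.swap b c, K0_le (swap_mem b c)⟩, swap_mem b c⟩, rfl⟩)
  · refine ⟨?_, ?_, ?_, ?_, th_mul, th_ne, ?_⟩
    · intro n m hnm g hg
      exact Kn0_mono hnm hg
    · intro n
      haveI := Kn0_finite n
      refine Finite.of_injective (β := Kn0 n) (fun g => ⟨g.1.1, g.2⟩) ?_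
      intro g h hgh
      apply Subtype.ext
      apply Subtype.ext
      have h1 : (⟨g.1.1, g.2⟩ : Kn0 n) = ⟨h.1.1, h.2⟩ := hgh
      exact congrArg (fun u : Kn0 n => (u : PZ)) h1
    · intro x
      exact mem_K0_iff x.1
    · intro n x
      exact th_mem n x
    · intro x hx
      refine Eventually.of_forall fun n => ?_
      exact th_eq (kk_eq hx) n

/-! ### Matrices -/

section ring

open ICCaux

variable {A B : Type} [Ring A] [Ring B] (f : B →+* A)

/-- the `b` such that `1 + f(b) E_ij` commutes with `g` -/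
def DB (i j : Fin 3) (h : i ≠ j) (g : (Matrix (Fin 3) (Fin 3) A)ˣ) : AddSubgroup B :=
  (DD i j h g).comap f.toAddMonoidHom

theorem DB_index (i j : Fin 3) (h : i ≠ j) (g : (Matrix (Fin 3) (Fin 3) A)ˣ)
    (hf : (Set.range fun b : B => el i j h (f b) * g * (el i j h (f b))⁻¹).Finite) :
    (DB f i j h g).index ≠ 0 := by
  rw [AddSubgroup.index_ne_zero_iff_finite]
  have hfin : Finite (Set.range fun b : B => el i j h (f b) * g * (el i j h (f b))⁻¹) := hf
  have key : ∀ a b : B, -a + b ∈ DB f i j h g ↔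
      el i j h (f a) * g * (el i j h (f a))⁻¹ = el i j h (f b) * g * (el i j h (f b))⁻¹ := by
    intro a b
    show el i j h (f (-a + b)) * g = g * el i j h (f (-a + b)) ↔ _
    rw [map_add, map_neg, ← el_mul, ← el_inv]
    exact conj_iff _ _ _
  let q : B ⧸ (DB f i j h g) → Set.range fun b : B => el i j h (f b) * g * (el i j h (f b))⁻¹ :=
    Quotient.lift (s := QuotientAddGroup.leftRel (DB f i j h g))
      (fun a => ⟨_, a, rfl⟩) (by
        intro a b hab
        have h1 : -a + b ∈ DB f i j h g := QuotientAddGroup.leftRel_apply.mp hab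
        exact Subtype.ext ((key a b).mp h1))
  refine Finite.of_injective q ?_
  intro x y
  induction x using QuotientAddGroup.induction_on with | _ a
  induction y using QuotientAddGroup.induction_on with | _ b
  intro hab
  exact QuotientAddGroup.eq.mpr ((key a b).mpr (Subtype.ext_iff.mp hab))

theorem finrange_of_index' (D : AddSubgroup B) (hD : D.index ≠ 0) (φ : B →+ A)
    (h : ∀ a ∈ D, φ a = 0) : (Set.range φ).Finite := by
  have h1 : D ≤ φ.ker := fun a ha => h a ha
  have h2 : φ.ker.index ≠ 0 := ne_zero_of_dvd_ne_zero hD (AddSubgroup.index_dvd_of_le h1)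
  rw [AddSubgroup.index_ker] at h2
  have h3 : Finite φ.range := Nat.finite_of_card_ne_zero h2
  have h4 : ((φ.range : AddSubgroup A) : Set A).Finite := h3
  rwa [AddMonoidHom.coe_range] at h4

/-- An element of the general linear group with finitely many conjugates under the elementary
matrices with entries in `f(B)` is scalar, with a scalar commuting with `f(B)`. -/
theorem scalar_of_fin' (hL : ∀ c : A, c ≠ 0 → (Set.range fun b : B => c * f b).Infinite)
    (hR : ∀ c : A, c ≠ 0 → (Set.range fun b : B => f b * c).Infinite)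
    (g : (Matrix (Fin 3) (Fin 3) A)ˣ)
    (hf : ∀ (i j : Fin 3) (h : i ≠ j),
      (Set.range fun b : B => el i j h (f b) * g * (el i j h (f b))⁻¹).Finite) :
    ∃ u : A, (∀ x : B, u * f x = f x * u) ∧ ∀ i j, g.1 i j = if i = j then u else 0 := by
  have l1 : ∀ (D : AddSubgroup B), D.index ≠ 0 → ∀ c : A, (∀ a ∈ D, c * f a = 0) → c = 0 := by
    intro D hD c hc
    by_contra hne
    exact hL c hne (finrange_of_index' D hD ((AddMonoidHom.mulLeft c).comp f.toAddMonoidHom) hc)
  have l2 : ∀ (D : AddSubgroup B), D.index ≠ 0 → ∀ c : A, (∀ a ∈ D, f a * c = 0) → c = 0 := by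
    intro D hD c hc
    by_contra hne
    exact hR c hne (finrange_of_index' D hD ((AddMonoidHom.mulRight c).comp f.toAddMonoidHom) hc)
  have ho : ∀ k i : Fin 3, k ≠ i → g.1 k i = 0 := by
    intro k i hk
    exact l1 _ (DB_index f i k hk.symm g (hf i k hk.symm)) _
      (fun a ha => entry_zero (a := f a) ha hk)
  have hc : ∀ (i j : Fin 3), i ≠ j → ∀ x : B, g.1 j j * f x = f x * g.1 j j := by
    intro i j h x
    rw [← sub_eq_zero]
    have hD := DB_index f i j h g (hf i j h)
    refine l2 (DB f i j h g ⊓ (DB f i j h g).comap (AddMonoidHom.mulRight x))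
      (AddSubgroup.index_inf_ne_zero hD (comap_index _ hD _)) _ ?_
    intro a ha
    have ha1 : f a ∈ DD i j h g := ha.1
    have ha2 : f (a * x) ∈ DD i j h g := ha.2
    rw [map_mul] at ha2
    have e1 := entry_eq ha1
    have e2 := entry_eq ha2
    rw [mul_sub, ← mul_assoc, ← mul_assoc, e1, mul_assoc, ← e2, sub_self]
  have he : ∀ (i j : Fin 3), i ≠ j → g.1 i i = g.1 j j := by
    intro i j h
    rw [← sub_eq_zero]
    refine l1 _ (DB_index f i j h g (hf i j h)) _ ?_
    intro a ha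
    have ha1 : f a ∈ DD i j h g := ha
    rw [sub_mul, ← entry_eq ha1, hc i j h a, sub_self]
  refine ⟨g.1 0 0, hc 1 0 (by decide), fun i j => ?_⟩
  split_ifs with h
  · subst h
    by_cases h0 : i = 0
    · rw [h0]
    · exact he i 0 h0
  · exact ho i j h

theorem fin_E3' (g : E3 A)
    (hfin : {x : E3 A | ∃ h ∈ EX3aux.ES (Set.range f), x = h * g * h⁻¹}.Finite)
    (i j : Fin 3) (h : i ≠ j) :
    (Set.range fun b : B => el i j h (f b) * g.1 * (el i j h (f b))⁻¹).Finite := by
  refine (hfin.image Subtype.val).subset ?_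
  rintro _ ⟨a, rfl⟩
  let e : E3 A := ⟨el i j h (f a), Subgroup.subset_closure ⟨i, j, h, f a, rfl⟩⟩
  refine ⟨e * g * e⁻¹, ⟨e, Subgroup.subset_closure ⟨i, j, h, f a, ⟨a, rfl⟩, rfl⟩, rfl⟩, ?_⟩
  rw [Subgroup.coe_mul, Subgroup.coe_mul, Subgroup.coe_inv]

end ring

section gp

variable {F : Type} [Field F] {Γ : Type} [Group Γ] (K : Subgroup Γ)

theorem inc_single (k : K) : EX3aux.inc F K (MonoidAlgebra.single k 1) =
    MonoidAlgebra.single (k : Γ) 1 := by
  rw [EX3aux.inc_apply, MonoidAlgebra.mapDomain_single]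
  rfl

theorem inf_left' [Infinite K] (c : MonoidAlgebra F Γ) (hc : c ≠ 0) :
    (Set.range fun b => c * EX3aux.inc F K b).Infinite := by
  classical
  intro hfin
  have h0 : c.coeff ≠ 0 := fun h => hc (MonoidAlgebra.coeff_eq_zero.mp h)
  obtain ⟨g0, hg0⟩ := Finsupp.support_nonempty_iff.mpr h0
  rw [Finsupp.mem_support_iff] at hg0
  have h1 : (⋃ v ∈ Set.range fun b => c * EX3aux.inc F K b,
      ((v : MonoidAlgebra F Γ).coeff.support : Set Γ)).Finite :=
    hfin.biUnion fun v _ => v.coeff.support.finite_toSet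
  have h2 : Function.Injective fun x : K => g0 * (x : Γ) :=
    (mul_right_injective g0).comp Subtype.val_injective
  refine (Set.infinite_range_of_injective h2) (h1.subset ?_)
  rintro _ ⟨x, rfl⟩
  rw [Set.mem_iUnion₂]
  refine ⟨c * EX3aux.inc F K (MonoidAlgebra.single x 1), ⟨_, rfl⟩, ?_⟩
  rw [inc_single, Finset.mem_coe, Finsupp.mem_support_iff, MonoidAlgebra.coeff_mul_single_apply]
  simpa using hg0

theorem inf_right' [Infinite K] (c : MonoidAlgebra F Γ) (hc : c ≠ 0) :
    (Set.range fun b => EX3aux.inc F K b * c).Infinite := by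
  classical
  intro hfin
  have h0 : c.coeff ≠ 0 := fun h => hc (MonoidAlgebra.coeff_eq_zero.mp h)
  obtain ⟨g0, hg0⟩ := Finsupp.support_nonempty_iff.mpr h0
  rw [Finsupp.mem_support_iff] at hg0
  have h1 : (⋃ v ∈ Set.range fun b => EX3aux.inc F K b * c,
      ((v : MonoidAlgebra F Γ).coeff.support : Set Γ)).Finite :=
    hfin.biUnion fun v _ => v.coeff.support.finite_toSet
  have h2 : Function.Injective fun x : K => (x : Γ) * g0 :=
    (mul_left_injective g0).comp Subtype.val_injective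
  refine (Set.infinite_range_of_injective h2) (h1.subset ?_)
  rintro _ ⟨x, rfl⟩
  rw [Set.mem_iUnion₂]
  refine ⟨EX3aux.inc F K (MonoidAlgebra.single x 1) * c, ⟨_, rfl⟩, ?_⟩
  rw [inc_single, Finset.mem_coe, Finsupp.mem_support_iff, MonoidAlgebra.coeff_single_mul_apply]
  simpa using hg0

/-- the commutant of the group algebra of `K` -/
theorem center' (hi : RICC Γ K) (u : MonoidAlgebra F Γ)
    (hu : ∀ x, u * EX3aux.inc F K x = EX3aux.inc F K x * u) :
    ∃ c : F, u = MonoidAlgebra.single 1 c := by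
  classical
  refine ⟨u.coeff 1, ?_⟩
  apply MonoidAlgebra.coeff_injective
  ext g
  rw [MonoidAlgebra.coeff_single]
  by_cases hg : g = 1
  · subst hg
    simp
  rw [Finsupp.single_apply, if_neg (Ne.symm hg)]
  by_contra hne
  refine hi g hg (u.coeff.support.finite_toSet.subset ?_)
  rintro _ ⟨h, hK, rfl⟩
  have h1 := hu (MonoidAlgebra.single ⟨h, hK⟩ 1)
  rw [inc_single] at h1
  have h2 := congrArg (fun v : MonoidAlgebra F Γ => v.coeff (h * g)) h1
  simp only [MonoidAlgebra.coeff_mul_single_apply, MonoidAlgebra.coeff_single_mul_apply] at h2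
  rw [Finset.mem_coe, Finsupp.mem_support_iff]
  rw [mul_one, one_mul, inv_mul_cancel_left] at h2
  rw [h2]
  exact hne

open ICCaux in
/-- relative infinite conjugacy classes of `E_3(F[K]) ≤ E_3(F[Γ])` -/
theorem ricc_E3 [Infinite K] (hF : ∀ c : F, c ^ 3 = 1 → c = 1) (hΓ : RICC Γ K) :
    RICC (E3 (MonoidAlgebra F Γ)) (EX3aux.ES (EX3aux.Sp F K)) := by
  intro g hg hfin
  apply hg
  rw [← EX3aux.inc_range] at hfin
  have hf := fin_E3' (EX3aux.inc F K) g hfin
  obtain ⟨u, hu1, hu2⟩ := scalar_of_fin' (EX3aux.inc F K) (inf_left' K) (inf_right' K) g.1 hf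
  obtain ⟨c, rfl⟩ := center' K hΓ u hu1
  obtain ⟨φ, hφ⟩ := exists_aug (F := F) (Γ := Γ)
  have h3 := scalar_one φ hF g.1 g.2 _ hu2
  rw [hφ] at h3
  subst h3
  exact eq_one_E3 g hu2

end gp

end Pool.Agent.Run7.h632.EX
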