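import Pool.Agent.Run7.h632.EX.Grp

/-!
# The local embeddings of `E_3(F[Γ])` with explicit subgroup `E_3(F[K])`

The construction of `Pool.Agent.N571.EX.EX3aux.main`, with the subgroup `ES S` displayed.
-/

set_option autoImplicit false

namespace Pool.Agent.Run7.h632.EX

open Filter
open Pool.Agent.N44.NS (el E3)
open Pool.Agent.N571.EX
open EX3aux

theorem loc_main {A B : Type} [Ring A] [Ring B] (Θ : ℕ → A →+ A)
    (S : Set A) (Sn : ℕ → Set A) (hmono : Monotone Sn) (hS : ∀ a ∈ S, ∃ n, a ∈ Sn n)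
    (hS' : ∀ n, Sn n ⊆ S) (ι : B →+* A) (hr : Set.range ι = S)
    (hfin : ∀ n, Finite (ES (Sn n))) (hval : ∀ n a, Θ n a ∈ S)
    (h1 : ∀ᶠ n in atTop, Θ n 1 = 1)
    (hmul : ∀ a b, ∀ᶠ n in atTop, Θ n (a * b) = Θ n a * Θ n b)
    (hne : ∀ a, a ≠ 0 → ∀ᶠ n in atTop, Θ n a ≠ 0) (hid : ∀ a ∈ S, ∀ᶠ n in atTop, Θ n a = a) :
    ∃ (Kn' : ℕ → Subgroup (E3 A)) (θ' : ℕ → E3 A → E3 A), ExD (E3 A) (ES S) Kn' θ' := by
  classical
  let θ' : ℕ → E3 A → E3 A := fun n g =>
    if h : ∃ k : E3 A, k ∈ ES S ∧ k.1.1 = g.1.1.map (Θ n) then h.choose else 1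
  have hθ : ∀ g, ∀ᶠ n in atTop, (θ' n g).1.1 = g.1.1.map (Θ n) := by
    intro g
    filter_upwards [key_eventually Θ S hval h1 hmul g] with n hn
    show (if h : ∃ k : E3 A, k ∈ ES S ∧ k.1.1 = g.1.1.map (Θ n) then h.choose else 1).1.1 = _
    rw [dif_pos hn]
    exact hn.choose_spec.2
  have hext : ∀ g h : E3 A, g.1.1 = h.1.1 → g = h := fun g h hgh => Subtype.ext (Units.ext hgh)
  refine ⟨fun n => ES (Sn n), θ', ⟨fun m n hmn => ES_mono (hmono hmn), hfin, fun x => ?_,
    fun n x => ?_, fun x y => ?_, fun x hx => ?_, fun x hx => ?_⟩⟩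
  · exact ⟨ES_un hmono hS x, fun ⟨n, hn⟩ => ES_mono (hS' n) hn⟩
  · show (if h : ∃ k : E3 A, k ∈ ES S ∧ k.1.1 = x.1.1.map (Θ n) then h.choose else 1) ∈ ES S
    split_ifs with h
    · exact h.choose_spec.1
    · exact one_mem _
  · filter_upwards [hθ x, hθ y, hθ (x * y), map_eventually Θ hmul x.1.1 y.1.1] with n e1 e2 e3 e4
    apply hext
    rw [e3]
    show (x.1.1 * y.1.1).map (Θ n) = (θ' n x).1.1 * (θ' n y).1.1
    rw [e1, e2, e4]
  · have h2 : ∃ i j : Fin 3, x.1.1 i j ≠ (1 : Matrix (Fin 3) (Fin 3) A) i j := by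
      by_contra hcon
      push Not at hcon
      exact hx (hext _ _ (by ext1 i j; exact hcon i j))
    obtain ⟨i, j, hij⟩ := h2
    filter_upwards [hθ x, map_one_eventually Θ h1, hne _ (sub_ne_zero.mpr hij)] with n e1 e2 e3
    intro h
    rw [h] at e1
    apply e3
    rw [map_sub, sub_eq_zero]
    have e4 := congrFun (congrFun e1 i) j
    have e5 := congrFun (congrFun e2 i) j
    rw [Matrix.map_apply] at e4 e5
    rw [← e4, e5]
    rfl
  · subst hr
    have h2 : ∀ᶠ n in atTop, ∀ i j : Fin 3, Θ n (x.1.1 i j) = x.1.1 i j := by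
      rw [Filter.eventually_all]
      intro i
      rw [Filter.eventually_all]
      intro j
      exact hid _ (ES_entry ι x hx i j)
    filter_upwards [hθ x, h2] with n e1 e2
    apply hext
    rw [e1]
    ext1 i j
    rw [Matrix.map_apply, e2]

theorem ex3 (F : Type) [Field F] [Finite F] (Γ : Type) [Group Γ] (K : Subgroup Γ)
    (Kn : ℕ → Subgroup Γ) (θ : ℕ → Γ → Γ) (h : ExD Γ K Kn θ) :
    ∃ (Kn' : ℕ → Subgroup (E3 (MonoidAlgebra F Γ)))
      (θ' : ℕ → E3 (MonoidAlgebra F Γ) → E3 (MonoidAlgebra F Γ)),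
      ExD (E3 (MonoidAlgebra F Γ)) (ES (Sp F K)) Kn' θ' := by
  have hone : ∀ᶠ n in atTop, θ n 1 = 1 := by
    filter_upwards [h.mul 1 1] with n hn
    rw [mul_one] at hn
    exact (left_eq_mul.mp hn)
  have hKn : ∀ n, Kn n ≤ K := fun n x hx => (h.mem x).mpr ⟨n, hx⟩
  refine loc_main (A := MonoidAlgebra F Γ) (B := MonoidAlgebra F K) (fun n => Th F (θ n)) (Sp F K)
    (fun n => Sp F (Kn n)) (fun m n hmn => Sp_mono (h.mono hmn)) ?_ (fun n => Sp_mono (hKn n))
    (inc F K) (inc_range K) ?_ (fun n a => Th_Sp (θ n) K (h.val n) a) ?_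
    (Th_mul h.mul) ?_ ?_
  · intro a ha
    have h1 : ∀ g : Γ, ∃ n, g ∈ a.coeff.support → g ∈ Kn n := by
      intro g
      by_cases hg : g ∈ a.coeff.support
      · obtain ⟨n, hn⟩ := (h.mem g).mp (ha g hg)
        exact ⟨n, fun _ => hn⟩
      · exact ⟨0, fun h => absurd h hg⟩
    choose N hN using h1
    refine ⟨a.coeff.support.sup N, fun g hg => ?_⟩
    exact h.mono (Finset.le_sup hg) (hN g hg)
  · intro n
    have := h.fin n
    have h1 := finite_alg (F := F) (Kn n)
    rw [← inc_range]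
    exact ES_finite (inc F (Kn n))
  · filter_upwards [hone] with n hn
    show Th F (θ n) 1 = 1
    rw [MonoidAlgebra.one_def, Th_single, hn]
  · intro a ha
    have h1 : ∀ᶠ n in atTop, ∀ x ∈ a.coeff.support, ∀ y ∈ a.coeff.support, x ≠ y →
        θ n x ≠ θ n y := by
      rw [Filter.eventually_all_finset]
      intro x _
      rw [Filter.eventually_all_finset]
      intro y _
      by_cases hxy : x = y
      · exact Eventually.of_forall fun n hn => absurd hxy hn
      · filter_upwards [h.mul (x * y⁻¹) y, h.ne (x * y⁻¹) (fun h => hxy (mul_inv_eq_one.mp h))]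
          with n h1 h2 _ h3
        rw [inv_mul_cancel_right, h3] at h1
        exact h2 (right_eq_mul.mp h1)
    filter_upwards [h1] with n hn
    refine Th_ne a ha ?_
    intro x hx y hy hxy
    by_contra hne
    exact hn x hx y hy hne hxy
  · intro a ha
    have h1 : ∀ᶠ n in atTop, ∀ x ∈ a.coeff.support, θ n x = x := by
      rw [Filter.eventually_all_finset]
      intro x hx
      exact h.id x (ha x hx)
    filter_upwards [h1] with n hn
    exact Th_id (θ n) a hn

theorem inf_ES (F : Type) [Field F] (Γ : Type) [Group Γ] (K : Subgroup Γ) [Infinite K] :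
    Infinite (ES (Sp F K)) := by
  have e := (MonoidHom.ofInjective (em_inj (inc F K) (inc_inj K))).trans
    (MulEquiv.subgroupCongr (em_range (inc F K)))
  rw [inc_range] at e
  have := inf_e3 F K
  exact Infinite.of_injective e e.injective

end Pool.Agent.Run7.h632.EX
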