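import Pool.Agent.Run7.h632.EX.Loc
import Pool.Agent.N571.EX.Plain

/-!
# Hyperfiniteness of `L(K)` and irreducibility of `L(K) ⊆ L(G)`
-/

set_option autoImplicit false

namespace Pool.Agent.Run7.h632.EX

open Filter Topology
open scoped InnerProductSpace
open Pool.Agent.H494R3.GT (L2 dl inner_dl vec_ext mul_ap dl_apply_self dl_apply_ne dl_orthonormal)
open Pool.Agent.N557.QW (lam rgt LG LK cf rc mem_LG_iff lam_mem lam_dl star_lam lam_mul lam_one)
open Pool.Agent.N571.EX

noncomputable section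

section fd

variable {G : Type} [Group G]

/-- the group algebra of a subgroup -/
def GA (F : Subgroup G) : StarSubalgebra ℂ (L2 G →L[ℂ] L2 G) where
  carrier := Submodule.span ℂ (Set.range fun g : F => lam (g : G))
  mul_mem' := by
    intro a b ha hb
    have h1 : a * b ∈ Submodule.span ℂ (Set.range fun g : F => lam (g : G)) *
        Submodule.span ℂ (Set.range fun g : F => lam (g : G)) := Submodule.mul_mem_mul ha hb
    rw [Submodule.span_mul_span] at h1
    refine Submodule.span_mono ?_ h1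
    rintro _ ⟨_, ⟨g, rfl⟩, _, ⟨h, rfl⟩, rfl⟩
    exact ⟨g * h, lam_mul _ _⟩
  add_mem' := fun ha hb => Submodule.add_mem _ ha hb
  algebraMap_mem' := by
    intro c
    rw [Algebra.algebraMap_eq_smul_one, ← lam_one]
    exact Submodule.smul_mem _ _ (Submodule.subset_span ⟨1, rfl⟩)
  star_mem' := by
    intro a ha
    change a ∈ Submodule.span ℂ (Set.range fun g : F => lam (g : G)) at ha
    change star a ∈ Submodule.span ℂ (Set.range fun g : F => lam (g : G))
    induction ha using Submodule.span_induction with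
    | mem x hx =>
      obtain ⟨g, rfl⟩ := hx
      rw [star_lam]
      exact Submodule.subset_span ⟨g⁻¹, rfl⟩
    | zero => rw [star_zero]; exact Submodule.zero_mem _
    | add x y _ _ hx hy => rw [star_add]; exact Submodule.add_mem _ hx hy
    | smul c x _ hx => rw [star_smul]; exact Submodule.smul_mem _ _ hx

theorem mem_GA {F : Subgroup G} {x : L2 G →L[ℂ] L2 G} :
    x ∈ GA F ↔ x ∈ Submodule.span ℂ (Set.range fun g : F => lam (g : G)) := Iff.rfl

theorem GA_fd (F : Subgroup G) [Finite F] : FiniteDimensional ℂ (GA F) := by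
  have h1 : FiniteDimensional ℂ (Submodule.span ℂ (Set.range fun g : F => lam (g : G))) :=
    FiniteDimensional.span_of_finite ℂ (Set.finite_range _)
  exact h1

theorem GA_mono {F F' : Subgroup G} (h : F ≤ F') : GA F ≤ GA F' := by
  intro x hx
  rw [mem_GA] at hx ⊢
  refine Submodule.span_mono ?_ hx
  rintro _ ⟨g, rfl⟩
  exact ⟨⟨g, h g.2⟩, rfl⟩

end fd

/-- `L(K)` is the 2-norm closure of an increasing union of finite-dimensional `*`-algebras. -/
theorem hyp {G : Type} [Group G] {K : Subgroup G} {Kn : ℕ → Subgroup G} {θ : ℕ → G → G}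
    (hTR : S_TR) (hPF : S_PF) (h : ExD G K Kn θ) :
    ∃ A : ℕ → StarSubalgebra ℂ (L2 G →L[ℂ] L2 G), Monotone A ∧
      (∀ n, FiniteDimensional ℂ (A n)) ∧ (∀ n, ∀ a ∈ A n, a ∈ LK K) ∧
      ∀ x ∈ LK K, ∀ ε : ℝ, 0 < ε → ∃ n, ∃ a ∈ A n, ‖a (dl 1) - x (dl 1)‖ < ε := by
  obtain ⟨hLK, -⟩ := hTR G K
  have hlam : ∀ g ∈ K, lam g ∈ LK K := by
    intro g hg
    refine (hLK _).2 ⟨lam_mem g, fun t ht => ?_⟩
    rw [cf_eq, lam_dl, mul_one]
    exact dl_apply_ne fun h => ht (h ▸ hg)
  refine ⟨fun n => GA (Kn n), fun m n hmn => GA_mono (h.mono hmn), fun n => ?_, ?_, ?_⟩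
  · haveI := h.fin n
    exact GA_fd _
  · intro n a ha
    change a ∈ Submodule.span ℂ (Set.range fun g : Kn n => lam (g : G)) at ha
    change a ∈ (LK K).toStarSubalgebra
    induction ha using Submodule.span_induction with
    | mem x hx =>
      obtain ⟨g, rfl⟩ := hx
      exact hlam g ((h.mem _).2 ⟨n, g.2⟩)
    | zero => exact zero_mem _
    | add x y _ _ hx hy => exact add_mem hx hy
    | smul c x _ hx => exact (LK K).toStarSubalgebra.smul_mem hx c
  · intro x hx ε hε
    obtain ⟨-, -, -, -, -, -, -, -, -, -, hd⟩ := hPF G K Kn θ h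
    obtain ⟨p, hp, -, hpK⟩ := hd x ((hLK x).1 hx).1 ε hε
    have h1 : ∀ g : G, ∃ n, g ∈ p.support → g ∈ Kn n := by
      intro g
      by_cases hg : g ∈ p.support
      · obtain ⟨n, hn⟩ := (h.mem g).mp (hpK hx g hg)
        exact ⟨n, fun _ => hn⟩
      · exact ⟨0, fun h => absurd h hg⟩
    choose N hN using h1
    refine ⟨p.support.sup N, pf id p, ?_, ?_⟩
    · rw [mem_GA]
      unfold pf
      rw [Finsupp.sum]
      refine Submodule.sum_mem _ fun g hg => Submodule.smul_mem _ _ (Submodule.subset_span ?_)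
      exact ⟨⟨g, h.mono (Finset.le_sup hg) (hN g hg)⟩, rfl⟩
    · rw [norm_sub_rev]
      exact hp

/-- the relative commutant of `L(K)` in `L(G)` -/
theorem irr {G : Type} [Group G] {K : Subgroup G} (hTR : S_TR) (h : RICC G K) :
    ∀ z ∈ LG G, (∀ x ∈ LK K, z * x = x * z) → ∃ c : ℂ, z = c • (1 : L2 G →L[ℂ] L2 G) := by
  obtain ⟨hLK, htr, -⟩ := hTR G K
  have hlam : ∀ g ∈ K, lam g ∈ LK K := by
    intro g hg
    refine (hLK _).2 ⟨lam_mem g, fun t ht => ?_⟩
    rw [cf_eq, lam_dl, mul_one]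
    exact dl_apply_ne fun h => ht (h ▸ hg)
  intro z hz hcom
  have hzero : ∀ g, g ≠ 1 → cf z g = 0 := by
    intro g hg
    by_contra hne
    refine finite_level (z (dl 1)) (cf z g) hne _ (h g hg) ?_
    rintro x ⟨k, hk, rfl⟩
    rw [← cf_eq, cf_conj hz k g (hcom _ (hlam k hk))]
  refine ⟨cf z 1, ?_⟩
  have h1 : (z - cf z 1 • (1 : L2 G →L[ℂ] L2 G)) (dl 1) = 0 := by
    apply vec_ext
    intro x
    have e1 : (z - cf z 1 • (1 : L2 G →L[ℂ] L2 G)) (dl 1) = z (dl 1) - cf z 1 • dl 1 := rfl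
    rw [e1]
    have e2 : (z (dl 1) - cf z 1 • dl 1 : L2 G) x = (z (dl 1)) x - cf z 1 * (dl 1 : L2 G) x := rfl
    rw [e2, ← cf_eq]
    by_cases hx : x = 1
    · rw [hx, dl_apply_self, mul_one, sub_self]
      rfl
    · rw [hzero x hx, dl_apply_ne hx, mul_zero, sub_zero]
      rfl
  have h2 : z - cf z 1 • (1 : L2 G →L[ℂ] L2 G) ∈ LG G := by
    have e1 : (1 : L2 G →L[ℂ] L2 G) ∈ (LG G).toStarSubalgebra := (LG G).toStarSubalgebra.one_mem
    have e2 : cf z 1 • (1 : L2 G →L[ℂ] L2 G) ∈ (LG G).toStarSubalgebra :=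
      (LG G).toStarSubalgebra.smul_mem e1 _
    exact (LG G).toStarSubalgebra.sub_mem hz e2
  exact sub_eq_zero.1 (htr.faithful _ h2 h1)

end

end Pool.Agent.Run7.h632.EX
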